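import Pool.Agent.U115.WM.Stm

/-!
# Project WM, package CMA: the product inequality for the alternating forms
-/

set_option autoImplicit false

open scoped Classical
open Finset Pool.Agent.U115.WM

namespace Pool.Agent.U375.WM

lemma sum_pairs (k : ℕ) (f : Fin k → ℕ) :
    ∑ p ∈ univ.filter (fun p : Fin k × Fin k => p.1 < p.2), (f p.1 + f p.2) =
      (k - 1) * ∑ i, f i := by
  rw [sum_filter, ← univ_product_univ, sum_product]
  have h1 : ∀ i j : Fin k, (if i < j then f i + f j else 0) =
      (if i < j then f i else 0) + (if i < j then f j else 0) := by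
    intro i j
    split_ifs <;> simp
  have h2 : ∀ i j : Fin k, (if i < j then f i else 0) + (if j < i then f i else 0) =
      if j ≠ i then f i else 0 := by
    intro i j
    rcases lt_trichotomy i j with h | h | h
    · rw [if_pos h, if_neg (not_lt.2 h.le), if_pos h.ne', add_zero]
    · rw [h]
      simp
    · rw [if_neg (not_lt.2 h.le), if_pos h, if_pos h.ne, zero_add]
  calc ∑ i : Fin k, ∑ j : Fin k, (if i < j then f i + f j else 0)
      = ∑ i : Fin k, ∑ j : Fin k, (if i < j then f i else 0) +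
        ∑ i : Fin k, ∑ j : Fin k, (if i < j then f j else 0) := by
        simp_rw [h1, sum_add_distrib]
    _ = ∑ i : Fin k, ∑ j : Fin k, (if i < j then f i else 0) +
        ∑ i : Fin k, ∑ j : Fin k, (if j < i then f i else 0) := by
        congr 1
        exact sum_comm
    _ = ∑ i : Fin k, ∑ j : Fin k, (if j ≠ i then f i else 0) := by
        rw [← sum_add_distrib]
        refine sum_congr rfl fun i _ => ?_
        rw [← sum_add_distrib]
        exact sum_congr rfl fun j _ => h2 i j
    _ = (k - 1) * ∑ i, f i := by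
        rw [mul_sum]
        refine sum_congr rfl fun i _ => ?_
        rw [← sum_filter, sum_const, filter_ne', card_erase_of_mem (mem_univ _), card_univ,
          Fintype.card_fin, smul_eq_mul]

lemma card_pairs (k : ℕ) :
    2 * (univ.filter (fun p : Fin k × Fin k => p.1 < p.2)).card = (k - 1) * k := by
  have h := sum_pairs k fun _ => 1
  rw [sum_const, sum_const, card_univ, Fintype.card_fin, smul_eq_mul, smul_eq_mul, mul_one] at h
  omega

lemma sum_gap (k : ℕ) (e : Fin k → ℕ) :
    ∑ p ∈ univ.filter (fun p : Fin k × Fin k => p.1 < p.2),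
      (if p.2.rev < p.1 then e p.1 - e p.2.rev else 0) ≤
    ∑ p ∈ univ.filter (fun p : Fin k × Fin k => p.1 < p.2), (e p.2 - e p.1) := by
  rw [← sum_filter]
  have hinj : Set.InjOn (fun p : Fin k × Fin k => (p.2.rev, p.1))
      (((univ.filter (fun p : Fin k × Fin k => p.1 < p.2)).filter
        fun p => p.2.rev < p.1 : Finset (Fin k × Fin k)) : Set (Fin k × Fin k)) := by
    rintro ⟨a, b⟩ _ ⟨c, d⟩ _ h
    simp only [Prod.mk.injEq] at h
    exact Prod.ext h.2 (Fin.rev_injective h.1)
  have h1 := sum_image (f := fun p : Fin k × Fin k => e p.2 - e p.1) hinj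
  rw [← h1]
  refine sum_le_sum_of_subset ?_
  intro q hq
  obtain ⟨p, hp, rfl⟩ := mem_image.1 hq
  exact mem_filter.2 ⟨mem_univ _, (mem_filter.1 hp).2⟩

theorem t_CMA : S_CMA := by
  intro k e M hk he hM hi
  set P := univ.filter (fun p : Fin k × Fin k => p.1 < p.2) with hP
  have hsub : ∏ α : {p : Fin k × Fin k // p.1 < p.2}, max 1 (M / 2 ^ (e α.1.1 + e α.1.2)) =
      ∏ p ∈ P, max 1 (M / 2 ^ (e p.1 + e p.2)) := by
    rw [prod_subtype P (p := fun p : Fin k × Fin k => p.1 < p.2)
      (fun p => by rw [hP, mem_filter]; simp)]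
  rw [hsub]
  -- the factors
  have hfac : ∀ p ∈ P, max 1 (M / 2 ^ (e p.1 + e p.2)) ≤
      (M / 2 ^ (e p.1 + e p.2)) * 2 ^ (if p.2.rev < p.1 then e p.1 - e p.2.rev else 0) := by
    intro p hp
    have h2 : (0 : ℝ) < 2 ^ (e p.1 + e p.2) := by positivity
    split_ifs with h
    · have h3 : e p.2.rev ≤ e p.1 := he h.le
      apply max_le
      · rw [div_mul_eq_mul_div, le_div_iff₀ h2, one_mul]
        calc (2 : ℝ) ^ (e p.1 + e p.2)
            = 2 ^ (e p.2 + e p.2.rev) * 2 ^ (e p.1 - e p.2.rev) := by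
              rw [← pow_add]
              congr 1
              omega
          _ ≤ M * 2 ^ (e p.1 - e p.2.rev) := mul_le_mul_of_nonneg_right (hi p.2) (by positivity)
      · exact le_mul_of_one_le_right (by positivity) (one_le_pow₀ (by norm_num))
    · rw [pow_zero, mul_one]
      have h3 : e p.1 ≤ e p.2.rev := he (not_lt.1 h)
      apply max_le _ le_rfl
      rw [le_div_iff₀ h2, one_mul]
      refine le_trans (pow_le_pow_right₀ (by norm_num) ?_) (hi p.2)
      omega
  have h1 : ∏ p ∈ P, max 1 (M / 2 ^ (e p.1 + e p.2)) ≤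
      (∏ p ∈ P, (M / 2 ^ (e p.1 + e p.2))) *
        ∏ p ∈ P, (2 : ℝ) ^ (if p.2.rev < p.1 then e p.1 - e p.2.rev else 0) := by
    rw [← prod_mul_distrib]
    exact prod_le_prod (fun p _ => le_trans zero_le_one (le_max_left _ _)) hfac
  have h2 : ∏ p ∈ P, (2 : ℝ) ^ (if p.2.rev < p.1 then e p.1 - e p.2.rev else 0) ≤ gap e := by
    have h3 : gap e = ∏ p ∈ P, (2 : ℝ) ^ (e p.2 - e p.1) := by
      unfold gap
      rw [hP]
    rw [h3, prod_pow_eq_pow_sum, prod_pow_eq_pow_sum]
    exact pow_le_pow_right₀ (by norm_num) (sum_gap k e)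
  have h3 : ∏ p ∈ P, (M / 2 ^ (e p.1 + e p.2)) =
      (M ^ (k : ℝ) * vol e ^ (-2 : ℝ)) ^ (((k : ℝ) - 1) / 2) := by
    have hv : vol e = 2 ^ ∑ i, e i := by
      unfold vol
      rw [prod_pow_eq_pow_sum]
    have hv0 : 0 < vol e := by
      rw [hv]
      positivity
    rw [prod_div_distrib, prod_const, prod_pow_eq_pow_sum, sum_pairs]
    have hc : (P.card : ℝ) = k * (((k : ℝ) - 1) / 2) := by
      have h4 := card_pairs k
      have h5 : ((2 * P.card : ℕ) : ℝ) = (((k - 1) * k : ℕ) : ℝ) := by rw [h4]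
      rw [Nat.cast_mul, Nat.cast_mul, Nat.cast_sub hk] at h5
      push_cast at h5
      linarith
    rw [Real.mul_rpow (by positivity) (by positivity), ← Real.rpow_mul hM.le,
      ← Real.rpow_mul hv0.le, ← hc, Real.rpow_natCast, div_eq_mul_inv]
    congr 1
    have h6 : (-2 : ℝ) * (((k : ℝ) - 1) / 2) = -((k - 1 : ℕ) : ℝ) := by
      rw [Nat.cast_sub hk]
      push_cast
      ring
    rw [h6, Real.rpow_neg hv0.le, Real.rpow_natCast, hv, ← pow_mul, mul_comm]
  rw [← h3]
  refine h1.trans (mul_le_mul_of_nonneg_left h2 ?_)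
  exact prod_nonneg fun p _ => by positivity

end Pool.Agent.U375.WM
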